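import Mathlib

/-!
# `q`-Catalan numbers: the least `t` of the log-concavity conjecture is not `75`

`m n k` is the coefficient of `q ^ k` in the `q`-Catalan number `C_n(q)`, and `Good t` says that for
all sufficiently large `n` the sequence `m n t, ..., m n (n (n - 1) - t)` is log-concave.
No `t ≤ 70` is good, and if some `t ≤ 499` is good then `71` is good. Hence the least good `t` is
not `75`: it is `71`, or at least `500`, or there is none.
-/

set_option autoImplicit false

namespace Pool.Agent.Results.MP_532027_co.LeastTNot75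

open Polynomial Finset

/-- `[m] = 1 + q + ... + q ^ (m - 1)`. -/
noncomputable def qint (m : ℕ) : ℤ[X] := ∑ i ∈ range m, X ^ i

/-- `[m]! = [1] [2] ... [m]`. -/
noncomputable def qfact (m : ℕ) : ℤ[X] := ∏ i ∈ range m, qint (i + 1)

/-- The `q`-Catalan number `[2n]! / ([n+1] [n]! [n]!)`. The division is exact, see the first part
of `result`. -/
noncomputable def qCat (n : ℕ) : ℤ[X] := qfact (2 * n) /ₘ (qint (n + 1) * (qfact n * qfact n))

/-- The coefficient `m_n(k)` of `q ^ k` in `C_n(q)`, for `k ∈ ℤ` (it is `0` for `k < 0`). -/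
noncomputable def m (n : ℕ) (k : ℤ) : ℤ := if 0 ≤ k then (qCat n).coeff k.toNat else 0

/-- For all sufficiently large `n` the sequence `m_n(t), m_n(t+1), ..., m_n(n(n-1)-t)` is
log-concave. -/
def Good (t : ℤ) : Prop := ∃ N : ℕ, ∀ n : ℕ, N ≤ n → ∀ k : ℤ, t + 1 ≤ k →
  k ≤ (n : ℤ) * (n - 1) - t - 1 → m n (k - 1) * m n (k + 1) ≤ m n k ^ 2

/-! ### `q`-integers -/

theorem qint_succ (m : ℕ) : qint (m + 1) = qint m + X ^ m := by
  rw [qint, sum_range_succ]; rfl

theorem qint_succ' (m : ℕ) : qint (m + 1) = X * qint m + 1 := by
  rw [qint, sum_range_succ', qint, mul_sum, pow_zero]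
  congr 1
  exact sum_congr rfl fun i _ => by rw [pow_succ']

theorem qint_zero : qint 0 = 0 := by simp [qint]

theorem qint_add (a b : ℕ) : qint (a + b) = qint a + X ^ a * qint b := by
  rw [qint, sum_range_add, qint, qint, mul_sum]
  congr 1
  exact sum_congr rfl fun i _ => by rw [pow_add]

theorem qfact_zero : qfact 0 = 1 := by simp [qfact]

theorem qfact_succ (m : ℕ) : qfact (m + 1) = qfact m * qint (m + 1) := by
  rw [qfact, prod_range_succ]; rfl

theorem qint_monic (m : ℕ) : (qint (m + 1)).Monic := monic_geom_sum_X (Nat.succ_ne_zero m)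

theorem qfact_monic (m : ℕ) : (qfact m).Monic :=
  monic_prod_of_monic _ _ fun i _ => qint_monic i

theorem coeff_qint (m k : ℕ) : (qint m).coeff k = if k < m then 1 else 0 := by
  rw [qint, finsetSum_coeff]
  simp only [coeff_X_pow]
  rw [sum_ite_eq]
  simp only [mem_range]

theorem natDegree_qint (m : ℕ) : (qint (m + 1)).natDegree = m := by
  apply natDegree_eq_of_le_of_coeff_ne_zero
  · rw [natDegree_le_iff_coeff_eq_zero]
    intro k hk
    rw [coeff_qint, if_neg (by omega)]
  · rw [coeff_qint, if_pos (by omega)]
    exact one_ne_zero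

theorem natDegree_qfact (m : ℕ) : (qfact m).natDegree * 2 = m * (m - 1) := by
  rw [qfact, natDegree_prod_of_monic _ _ fun i _ => qint_monic i]
  simp only [natDegree_qint]
  exact sum_range_id_mul_two m

theorem reverse_qint (m : ℕ) : (qint (m + 1)).reverse = qint (m + 1) := by
  ext k
  rw [coeff_reverse, natDegree_qint, coeff_qint, coeff_qint]
  by_cases h : k ≤ m
  · rw [revAt_le h, if_pos (by omega), if_pos (by omega)]
  · rw [revAt_eq_self_of_lt (by omega)]

theorem reverse_qfact (m : ℕ) : (qfact m).reverse = qfact m := by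
  induction m with
  | zero =>
    rw [qfact_zero]
    exact reverse_C (1 : ℤ)
  | succ m ih => rw [qfact_succ, reverse_mul_of_domain, ih, reverse_qint]

/-! ### Gaussian binomial coefficients -/

/-- The Gaussian binomial coefficients. -/
noncomputable def G : ℕ → ℕ → ℤ[X]
  | _, 0 => 1
  | 0, _ + 1 => 0
  | n + 1, k + 1 => G n k + X ^ (k + 1) * G n (k + 1)

theorem G_zero_right (n : ℕ) : G n 0 = 1 := by cases n <;> rfl

theorem G_of_lt {n k : ℕ} (h : n < k) : G n k = 0 := by
  induction n generalizing k with
  | zero =>
    cases k with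
    | zero => omega
    | succ k => rfl
  | succ n ih =>
    cases k with
    | zero => omega
    | succ k => rw [G, ih (by omega), ih (by omega)]; ring

theorem G_self (n : ℕ) : G n n = 1 := by
  induction n with
  | zero => rfl
  | succ n ih => rw [G, ih, G_of_lt (Nat.lt_succ_self n)]; ring

theorem G_mul (s : ℕ) : ∀ j k : ℕ, j + k = s → G (j + k) k * (qfact j * qfact k) = qfact (j + k) := by
  induction s with
  | zero =>
    intro j k h
    obtain ⟨rfl, rfl⟩ : j = 0 ∧ k = 0 := by omega
    rw [G_zero_right, qfact_zero]; ring
  | succ s ih =>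
    intro j k h
    cases k with
    | zero => rw [G_zero_right, qfact_zero, add_zero]; ring
    | succ k =>
      cases j with
      | zero => rw [zero_add, G_self, qfact_zero]; ring
      | succ j =>
        have h1 := ih (j + 1) k (by omega)
        have h2 := ih j (k + 1) (by omega)
        have e1 : j + 1 + (k + 1) = (j + 1 + k) + 1 := by ring
        have e2 : j + (k + 1) = j + 1 + k := by ring
        rw [e2] at h2
        rw [e1, G, qfact_succ (j + 1 + k)]
        have e3 : qint (j + 1 + k + 1) = qint (k + 1) + X ^ (k + 1) * qint (j + 1) := by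
          rw [← qint_add]
          congr 1
          ring
        rw [e3]
        calc (G (j + 1 + k) k + X ^ (k + 1) * G (j + 1 + k) (k + 1)) *
              (qfact (j + 1) * qfact (k + 1))
            = (G (j + 1 + k) k * (qfact (j + 1) * qfact k)) * qint (k + 1) +
              X ^ (k + 1) * qint (j + 1) *
                (G (j + 1 + k) (k + 1) * (qfact j * qfact (k + 1))) := by
              rw [qfact_succ k, qfact_succ j]; ring
          _ = _ := by rw [h1, h2]; ring

/-- The `q`-Catalan number as a difference. -/
theorem exists_cat (n : ℕ) : ∃ C : ℤ[X], qint (n + 1) * (qfact n * qfact n) * C = qfact (2 * n) := by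
  cases n with
  | zero =>
    refine ⟨1, ?_⟩
    simp [qfact, qint]
  | succ n =>
    have h1 := G_mul _ (n + 1) (n + 1) rfl
    have h2 := G_mul _ n (n + 2) rfl
    have e1 : n + 1 + (n + 1) = 2 * (n + 1) := by ring
    have e2 : n + (n + 2) = 2 * (n + 1) := by ring
    rw [e1] at h1
    rw [e2] at h2
    refine ⟨G (2 * (n + 1)) (n + 1) - X * G (2 * (n + 1)) (n + 2), ?_⟩
    have h3 : qfact (n + 2) = qfact (n + 1) * qint (n + 2) := qfact_succ (n + 1)
    have h4 : qint (n + 1 + 1) = X * qint (n + 1) + 1 := qint_succ' (n + 1)
    calc qint (n + 1 + 1) * (qfact (n + 1) * qfact (n + 1)) *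
          (G (2 * (n + 1)) (n + 1) - X * G (2 * (n + 1)) (n + 2))
        = qint (n + 1 + 1) * (G (2 * (n + 1)) (n + 1) * (qfact (n + 1) * qfact (n + 1))) -
          X * qint (n + 1) * (G (2 * (n + 1)) (n + 2) * (qfact n * qfact (n + 2))) := by
          rw [h3, qfact_succ n]; ring
      _ = (X * qint (n + 1) + 1) * qfact (2 * (n + 1)) - X * qint (n + 1) * qfact (2 * (n + 1)) := by
          rw [h1, h2, h4]
      _ = _ := by ring

theorem den_monic (n : ℕ) : (qint (n + 1) * (qfact n * qfact n)).Monic :=
  (qint_monic n).mul ((qfact_monic n).mul (qfact_monic n))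

theorem qCat_mul (n : ℕ) : qint (n + 1) * (qfact n * qfact n) * qCat n = qfact (2 * n) := by
  obtain ⟨C, hC⟩ := exists_cat n
  rw [qCat, ← hC, mul_divByMonic_cancel_left _ (den_monic n)]

theorem qCat_ne_zero (n : ℕ) : qCat n ≠ 0 := by
  intro h
  have h1 := qCat_mul n
  rw [h, mul_zero] at h1
  exact (qfact_monic (2 * n)).ne_zero h1.symm

theorem reverse_qCat (n : ℕ) : (qCat n).reverse = qCat n := by
  have h1 := congrArg reverse (qCat_mul n)
  rw [reverse_mul_of_domain, reverse_mul_of_domain, reverse_mul_of_domain, reverse_qint,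
    reverse_qfact, reverse_qfact, ← qCat_mul] at h1
  exact mul_left_cancel₀ (den_monic n).ne_zero h1

theorem natDegree_qCat (n : ℕ) : (qCat n).natDegree = n * (n - 1) := by
  have h1 := congrArg natDegree (qCat_mul n)
  rw [natDegree_mul (den_monic n).ne_zero (qCat_ne_zero n),
    (qint_monic n).natDegree_mul ((qfact_monic n).mul (qfact_monic n)),
    (qfact_monic n).natDegree_mul (qfact_monic n), natDegree_qint] at h1
  have h2 := natDegree_qfact n
  have h3 := natDegree_qfact (2 * n)
  cases n with
  | zero => simp at h1 h2 h3 ⊢; omega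
  | succ n =>
    have e1 : n + 1 - 1 = n := rfl
    have e2 : 2 * (n + 1) - 1 = 2 * n + 1 := by omega
    rw [e1] at h2 ⊢
    rw [e2] at h3
    nlinarith

theorem coeff_qCat_symm (n k : ℕ) (hk : k ≤ n * (n - 1)) :
    (qCat n).coeff (n * (n - 1) - k) = (qCat n).coeff k := by
  have h1 := coeff_reverse (qCat n) k
  rw [reverse_qCat, natDegree_qCat, revAt_le hk] at h1
  exact h1.symm

/-! ### The first coefficients -/

/-- `1 - X ^ (i + 1)`. -/
noncomputable def U (i : ℕ) : ℤ[X] := 1 - X ^ (i + 1)

theorem one_sub_mul_qint (m : ℕ) : (1 - X) * qint (m + 1) = U m := by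
  rw [qint, U]
  exact mul_neg_geom_sum X (m + 1)

theorem pow_mul_qfact (m : ℕ) : (1 - X) ^ m * qfact m = ∏ i ∈ range m, U i := by
  induction m with
  | zero => simp [qfact]
  | succ m ih =>
    rw [prod_range_succ, ← ih, qfact_succ, ← one_sub_mul_qint]
    ring

theorem one_sub_X_pow_ne_zero (k : ℕ) : (1 : ℤ[X]) - X ^ (k + 1) ≠ 0 := by
  intro h
  have h1 := congrArg (fun p : ℤ[X] => p.coeff 0) h
  simp at h1

theorem U_ne_zero (i : ℕ) : U i ≠ 0 := one_sub_X_pow_ne_zero i

/-- `(1 - q^2) ... (1 - q^n) C_n(q) = (1 - q^(n+2)) ... (1 - q^(2n))`. -/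
theorem prod_mul_qCat (n : ℕ) :
    (∏ i ∈ range n, U (i + 1)) * qCat (n + 1) = ∏ i ∈ range n, U (n + 2 + i) := by
  have h1 := qCat_mul (n + 1)
  have h2 : U (n + 1) * ((∏ i ∈ range (n + 1), U i) * ∏ i ∈ range (n + 1), U i) * qCat (n + 1) =
      (1 - X) * ((∏ i ∈ range (n + 1), U i) * ∏ i ∈ range (n + 1), U (n + 1 + i)) := by
    rw [← prod_range_add, ← two_mul, ← pow_mul_qfact (2 * (n + 1)), ← h1, ← pow_mul_qfact (n + 1),
      ← one_sub_mul_qint]
    ring
  have h3 : (∏ i ∈ range (n + 1), U i) ≠ 0 := prod_ne_zero_iff.2 fun i _ => U_ne_zero i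
  have h4 : U (n + 1) * (∏ i ∈ range (n + 1), U i) * qCat (n + 1) =
      (1 - X) * ∏ i ∈ range (n + 1), U (n + 1 + i) := by
    apply mul_left_cancel₀ h3
    calc _ = U (n + 1) * ((∏ i ∈ range (n + 1), U i) * ∏ i ∈ range (n + 1), U i) *
          qCat (n + 1) := by ring
      _ = _ := by rw [h2]; ring
  have h5 : ∏ i ∈ range (n + 1), U i = (∏ i ∈ range n, U (i + 1)) * (1 - X) := by
    rw [prod_range_succ']
    congr 1
    rw [U, zero_add, pow_one]
  have h6 : ∏ i ∈ range (n + 1), U (n + 1 + i) = (∏ i ∈ range n, U (n + 2 + i)) * U (n + 1) := by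
    rw [prod_range_succ', add_zero]
    congr 1
    exact prod_congr rfl fun i _ => by congr 1; ring
  rw [h5, h6] at h4
  have h7 : (1 : ℤ[X]) - X ≠ 0 := by
    have := one_sub_X_pow_ne_zero 0
    rwa [zero_add, pow_one] at this
  apply mul_left_cancel₀ (mul_ne_zero (U_ne_zero (n + 1)) h7)
  calc _ = U (n + 1) * ((∏ i ∈ range n, U (i + 1)) * (1 - X)) * qCat (n + 1) := by ring
    _ = _ := by rw [h4]; ring

theorem dvd_prod_sub_one (N e s : ℕ) (h : N ≤ e + 1) :
    (X : ℤ[X]) ^ N ∣ (∏ i ∈ range s, U (e + i)) - 1 := by
  induction s with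
  | zero => simp
  | succ s ih =>
    have e1 : (∏ i ∈ range (s + 1), U (e + i)) - 1 = ((∏ i ∈ range s, U (e + i)) - 1) -
        (∏ i ∈ range s, U (e + i)) * X ^ (e + s + 1) := by
      rw [prod_range_succ, U]; ring
    rw [e1]
    exact dvd_sub ih (Dvd.dvd.mul_left (pow_dvd_pow _ (by omega)) _)

/-- `C_n(q) (1 - q^2) ... (1 - q^K) = 1` up to the power `q^(K+1)`, for `n > K`. -/
theorem dvd_qCat (K n : ℕ) (h : K < n) :
    (X : ℤ[X]) ^ (K + 2) ∣ (∏ i ∈ range K, U (i + 1)) * qCat (n + 1) - 1 := by
  have h1 := prod_mul_qCat n
  obtain ⟨s, rfl⟩ := Nat.exists_eq_add_of_lt h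
  rw [show K + s + 1 = K + (s + 1) by ring] at h1 ⊢
  rw [prod_range_add] at h1
  have e0 : ∏ x ∈ range (s + 1), U (K + x + 1) = ∏ i ∈ range (s + 1), U ((K + 1) + i) :=
    prod_congr rfl fun i _ => by congr 1; ring
  rw [e0] at h1
  have h2 := dvd_prod_sub_one (K + 2) (K + 1) (s + 1) (by omega)
  have h3 := dvd_prod_sub_one (K + 2) (K + (s + 1) + 2) (K + (s + 1)) (by omega)
  rw [← h1] at h3
  have e1 : (∏ i ∈ range K, U (i + 1)) * qCat (K + (s + 1) + 1) - 1 =
      ((∏ i ∈ range K, U (i + 1)) * (∏ i ∈ range (s + 1), U ((K + 1) + i)) *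
        qCat (K + (s + 1) + 1) - 1) -
      (∏ i ∈ range K, U (i + 1)) * qCat (K + (s + 1) + 1) *
        ((∏ i ∈ range (s + 1), U ((K + 1) + i)) - 1) := by ring
  rw [e1]
  exact dvd_sub h3 (Dvd.dvd.mul_left h2 _)

/-! ### Truncated polynomials as lists -/

/-- The coefficients of `(1 - X ^ i) P`, for the list `L` of the coefficients of `P`. -/
def f (i : ℕ) (L : List ℤ) : List ℤ := L.take i ++ List.zipWith (· - ·) (L.drop i) L

/-- Apply `f i, f (i + 1), ...`. -/
def run : ℕ → ℕ → List ℤ → List ℤ
  | 0, _, L => L
  | n + 1, i, L => run n (i + 1) (f i L)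

/-- The list is `1, 0, 0, ...`. -/
def isOne : List ℤ → Bool
  | [] => true
  | a :: L => decide (a = 1) && L.all (fun x => decide (x = 0))

/-- The list `L` gives the first coefficients of `P`. -/
def Rep (L : List ℤ) (P : ℤ[X]) : Prop := ∀ k < L.length, L[k]? = some (P.coeff k)

theorem length_f (i : ℕ) (L : List ℤ) : (f i L).length = L.length := by
  simp only [f, List.length_append, List.length_take, List.length_zipWith, List.length_drop]
  omega

theorem Rep.f {L : List ℤ} {P : ℤ[X]} (h : Rep L P) (i : ℕ) :
    Rep (f i L) ((1 - X ^ i) * P) := by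
  intro k hk
  rw [length_f] at hk
  rw [sub_mul, one_mul, coeff_sub, coeff_X_pow_mul', LeastTNot75.f, List.getElem?_append,
    List.length_take]
  by_cases hik : k < i
  · rw [if_pos (by omega), List.getElem?_take_of_lt hik, h k hk, if_neg (by omega), sub_zero]
  · rw [if_neg (by omega), if_pos (by omega), List.getElem?_zipWith, List.getElem?_drop,
      min_eq_left (by omega), show i + (k - i) = k by omega, h k hk, h (k - i) (by omega)]

theorem Rep.run {n : ℕ} : ∀ {L : List ℤ} {P : ℤ[X]}, Rep L P → ∀ i : ℕ,
    Rep (run n i L) ((∏ s ∈ range n, (1 - X ^ (i + s))) * P) := by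
  induction n with
  | zero =>
    intro L P h i
    rw [LeastTNot75.run, prod_range_zero, one_mul]
    exact h
  | succ n ih =>
    intro L P h i
    rw [LeastTNot75.run, prod_range_succ']
    have h1 := ih (h.f i) (i + 1)
    have e : (∏ s ∈ range n, ((1 : ℤ[X]) - X ^ (i + 1 + s))) * ((1 - X ^ i) * P) =
        (∏ s ∈ range n, (1 - X ^ (i + (s + 1)))) * (1 - X ^ (i + 0)) * P := by
      rw [← mul_assoc, add_zero]
      congr 2
      exact prod_congr rfl fun s _ => by rw [show i + 1 + s = i + (s + 1) by ring]
    rwa [e] at h1

theorem length_run {n : ℕ} : ∀ (L : List ℤ) (i : ℕ), (run n i L).length = L.length := by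
  induction n with
  | zero => intro L i; rfl
  | succ n ih => intro L i; rw [run, ih, length_f]

theorem Rep.dvd {L : List ℤ} {P : ℤ[X]} (h : Rep L P) (h1 : isOne L = true) :
    (X : ℤ[X]) ^ L.length ∣ P - 1 := by
  rw [X_pow_dvd_iff]
  intro k hk
  have h2 := h k hk
  cases L with
  | nil => exact absurd hk (by simp)
  | cons a L =>
    rw [isOne, Bool.and_eq_true, List.all_eq_true] at h1
    obtain ⟨h3, h4⟩ := h1
    cases k with
    | zero =>
      simp only [List.getElem?_cons_zero, Option.some.injEq] at h2
      rw [coeff_sub, ← h2, of_decide_eq_true h3, coeff_one_zero, sub_self]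
    | succ k =>
      rw [List.getElem?_cons_succ] at h2
      have h5 := h4 _ (List.mem_of_getElem? h2)
      rw [coeff_sub, of_decide_eq_true h5, coeff_one, if_neg (by omega), sub_zero]

/-- The polynomial with the coefficients in the list. -/
noncomputable def poly (L : List ℤ) : ℤ[X] := ∑ k ∈ range L.length, C (L.getD k 0) * X ^ k

theorem coeff_poly (L : List ℤ) (k : ℕ) (hk : k < L.length) : (poly L).coeff k = L.getD k 0 := by
  rw [poly, finsetSum_coeff]
  simp only [coeff_C_mul_X_pow]
  rw [sum_ite_eq, if_pos (mem_range.2 hk)]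

theorem rep_poly (L : List ℤ) : Rep L (poly L) := by
  intro k hk
  rw [coeff_poly L k hk, List.getD_eq_getElem?_getD, List.getElem?_eq_getElem hk]
  rfl

/-- If the list `L` of length `K + 2` is the inverse of `(1 - q^2) ... (1 - q^(K+1))`, then it
gives the first coefficients of `C_n(q)` for `n > K + 1`. -/
theorem coeff_qCat_eq {L : List ℤ} {K : ℕ} (hL : L.length = K + 2)
    (h : isOne (run K 2 L) = true) (n : ℕ) (hn : K < n) (k : ℕ) (hk : k < K + 2) :
    (qCat (n + 1)).coeff k = L.getD k 0 := by
  have h1 := ((rep_poly L).run (n := K) 2).dvd h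
  rw [length_run, hL] at h1
  have e : (∏ s ∈ range K, ((1 : ℤ[X]) - X ^ (2 + s))) = ∏ i ∈ range K, U (i + 1) :=
    prod_congr rfl fun i _ => by rw [U, show i + 1 + 1 = 2 + i by ring]
  rw [e] at h1
  have h2 := dvd_qCat K n hn
  have h3 : (X : ℤ[X]) ^ (K + 2) ∣ qCat (n + 1) - poly L := by
    have e1 : qCat (n + 1) - poly L =
        poly L * ((∏ i ∈ range K, U (i + 1)) * qCat (n + 1) - 1) -
        qCat (n + 1) * ((∏ i ∈ range K, U (i + 1)) * poly L - 1) := by ring
    rw [e1]
    exact dvd_sub (Dvd.dvd.mul_left h2 _) (Dvd.dvd.mul_left h1 _)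
  rw [X_pow_dvd_iff] at h3
  have h4 := h3 k hk
  rw [coeff_sub, sub_eq_zero] at h4
  rw [h4, coeff_poly L k (by omega)]

/-- Log-concavity of a list. -/
def lc : List ℤ → Bool
  | a :: b :: c :: L => decide (a * c ≤ b * b) && lc (b :: c :: L)
  | _ => true

theorem lc_spec : ∀ (L : List ℤ), lc L = true → ∀ k, k + 2 < L.length →
    L.getD k 0 * L.getD (k + 2) 0 ≤ L.getD (k + 1) 0 ^ 2
  | [], _, k, hk => absurd hk (by simp)
  | [_], _, k, hk => absurd hk (by simp)
  | [_, _], _, k, hk => absurd hk (by simp)
  | a :: b :: c :: L, h, 0, _ => by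
    rw [lc, Bool.and_eq_true] at h
    have h1 := of_decide_eq_true h.1
    simp only [List.getD_cons_zero, List.getD_cons_succ]
    rw [sq]
    exact h1
  | a :: b :: c :: L, h, k + 1, hk => by
    rw [lc, Bool.and_eq_true] at h
    have h1 := lc_spec (b :: c :: L) h.2 k (by simpa using hk)
    simpa only [List.getD_cons_succ] using h1

/-- The number of the partitions of `k ≤ 500` without a part `1`. -/
def A : List ℤ := [1, 0, 1, 1, 2, 2, 4, 4, 7, 8, 12, 14, 21, 24, 34, 41, 55, 66, 88, 105, 137,
  165, 210, 253, 320, 383, 478, 574, 708, 847, 1039, 1238, 1507, 1794, 2167, 2573, 3094, 3660,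
  4378, 5170, 6153, 7245, 8591, 10087, 11914, 13959, 16424, 19196, 22519, 26252, 30701, 35717,
  41646, 48342, 56224, 65121, 75547, 87331, 101066, 116600, 134647, 155038, 178651, 205343,
  236131, 270928, 310962, 356169, 408046, 466610, 533623, 609237, 695578, 792906, 903811,
  1028764, 1170827, 1330772, 1512301, 1716486, 1947826, 2207851, 2501928, 2832214, 3205191,
  3623697, 4095605, 4624711, 5220436, 5887816, 6638248, 7478186, 8421448, 9476370, 10659543,
  11981699, 13462885, 15116626, 16967206, 19031739, 21339417, 23911834, 26784253, 29983571,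
  33552415, 37524344, 41950627, 46873053, 52353455, 58443396, 65217506, 72739457, 81098953,
  90374472, 100674037, 112093786, 124763797, 138801828, 154364067, 171594522, 190680895,
  211798491, 235172861, 261017329, 289602259, 321186852, 356095340, 394641603, 437214305,
  484193270, 536043530, 593224104, 656291385, 725798623, 802411183, 886795381, 979745604,
  1082063336, 1194696815, 1318608064, 1454928240, 1604811073, 1769604112, 1950689437, 2149671688,
  2368203564, 2608194590, 2871619379, 3160747519, 3477935703, 3825880113, 4207389269, 4625663839,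
  5084047903, 5586336956, 6136508817, 6739061662, 7398721010, 8120814033, 8910949753, 9775430911,
  10720908961, 11754836210, 12885091293, 14120479365, 15470324960, 16945022324, 18555597523,
  20314312649, 22234192364, 24329692015, 26616184918, 29110697565, 31831360282, 34798214855,
  38032623080, 41558159460, 45399973905, 49585774460, 54145147465, 59110637816, 64517020845,
  70402496542, 76807909204, 83778062903, 91360893907, 99608918036, 108578349895, 118330703303,
  128931854054, 140453804468, 152973696559, 166575755711, 181350249106, 197395636376,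
  214817471128, 233730774618, 254258890939, 276536105168, 300706448427, 326926597263,
  355364629259, 386203227436, 419638401890, 455883029522, 495165541765, 537733848780,
  583853998450, 633814519647, 687925076238, 746521272980, 809963310412, 878641319492,
  952974031019, 1033414689617, 1120449773392, 1214605549194, 1316446859433, 1426584408757,
  1545673644474, 1674422848222, 1813592164482, 1964002586262, 2126535165504, 2302141016135,
  2491840754407, 2696735626362, 2918007260051, 3156930044792, 3414871256893, 3693304861665,
  3993812092792, 4318096832235, 4667986767382, 5045450531946, 5452599544644, 5891707148593,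
  6365211262359, 6875735742946, 7426094034768, 8019313019148, 8658637830305, 9347558524221,
  10089816267629, 10889433151557, 11750720031501, 12678309863608, 13677167462472, 14752626827646,
  15910403138953, 17156634544056, 18497896803878, 19941250084020, 21494256663533, 23165033390553,
  24962272942015, 26895302622102, 28974109784575, 31209407753999, 33612666039319, 36196184312171,
  38973128147763, 41957612038559, 45164741562447, 48610706550555, 52312830630202, 56289675871795,
  60561100804647, 65148377949546, 70074261628265, 75363119986492, 81041014007489, 87135845905727,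
  93677450971882, 100697764357235, 108230927677725, 116313476485996, 124984463720098,
  134285670534315, 144261748983491, 154960459107441, 166432833655195, 178733444707987,
  191920593501837, 206056610382020, 221208073219442, 237446144837776, 254846824084280,
  273491325418369, 293466367097673, 314864598313791, 337784929571198, 362333013281588,
  388621622196933, 416771190144910, 446910244983573, 479176017116743, 513714934314753,
  550683306432456, 590247890521985, 632586661258577, 677889455679899, 726358840145338,
  778210845273265, 833675941407361, 892999875828239, 956444770222301, 1024290073577189,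
  1096833796972469, 1174393597317632, 1257308166453069, 1345938462976581, 1440669274775946,
  1541910618134446, 1650099495343153, 1765701482735836, 1889212707429677, 2021161648846961,
  2162111361623690, 2312661517974176, 2473450907307247, 2645159750251914, 2828512508954705,
  3024280507623332, 3233285091659847, 3456400593590766, 3694557884045648, 3948747726792255,
  4220024769448006, 4509511336959300, 4818401915776489, 5147967440816276, 5499560333558504,
  5874619344324504, 6274675211653137, 6701356129532565, 7156394103557447, 7641631120821200,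
  8159026287682383, 8710662789505165, 9298755904572312, 9925660851702198, 10593881786185014,
  11306080644661709, 12065087241870227, 12873909235390179, 13735743455603140, 14653987127930851,
  15632250584165256, 16674369895761719, 17784421132558027, 18966734579055924, 20225910725571008,
  21566836260248344, 22994701999532577, 24515020870919218, 26133648014313139, 27856800996016075,
  29691082339040343, 31643502237601240, 33721503804691101, 35932988587346438, 38286344853846542,
  40790476245322858, 43454833461739081, 46289446425135644, 49304959765329635, 52512668913117108,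
  55924559833559922, 59553349516249696, 63412530455007317, 67516416057054420, 71880190425563068,
  76519959269162235, 81452805608348415, 86696846834010554, 92271297029097027, 98196530900175710,
  104494153485056734, 111187071763659425, 118299572610992862, 125857402986167993,
  133887857087131326, 142419866120127205, 151484095721525844, 161113046423345521,
  171341162529179091, 182204944518509402, 193743070697080632, 205996522924627449,
  219008722509444148, 232825670799824763, 247496100959165605, 263071635135689323,
  279606953937339401, 297159972088568140, 315792027628783508, 335568078178429325,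
  356556912112470109, 378831367796419728, 402468569236747601, 427550170912900395,
  454162620685936948, 482397433144586312, 512351482864189479, 544127309510462542,
  577833444882904127, 613584753381925512, 651502796651979753, 691716213416390786,
  734361125958872602, 779581563774245320, 827529916593411642, 878367406791101624,
  932264594178238802, 989401902651047774, 1049970182550640460, 1114171297641788553,
  1182218751474269102, 1254338341449702661, 1330768856324388939, 1411762804861338702,
  1497587192396350885, 1588524332392706893, 1684872710854376411, 1786947890010252949,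
  1895083470315181090, 2009632096493343745, 2130966527927951375, 2259480758405732356,
  2395591206865098713, 2539737963415758156, 2692386113711151457, 2854027125175882724,
  3025180319703089890, 3206394415528046051, 3398249164533331989, 3601357066873460570,
  3816365190923218152, 4043957079595838143, 4284854772908750723, 4539820926972516007,
  4809661061286097541, 5095225913624145886, 5397413936539826153, 5717173913859375784,
  6055507733486270977, 6413473293956984773, 6792187583524102600, 7192829908261212046,
  7616645310591505840, 8064948153774480389, 8539125916569909449, 9040643172636401907,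
  9571045801904325380, 10131965407500226633, 10725123988693663436, 11352338842462757595,
  12015527747618380503, 12716714403098276433, 13458034178093846516, 14241740144649007894,
  15070209454380794496, 15945950029006991816, 16871607630614650318, 17849973280416653939,
  18883991096532142005, 19976766518637444064, 21131574994957721864, 22351871098590876683,
  23641298153940938257, 25003698339443686447, 26443123353068015729, 27963845606040513965,
  29570370037402632567, 31267446514198337550, 33060082916496253251, 34953558871485175657,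
  36953440242944778649, 39065594339896430773, 41296205958364887586, 43651794219765106589,
  46139230328065417275, 48765756209104438839, 51539004163069609761, 54467017493575712957,
  57558272253881935501, 60821700073971137735, 64266712219309318398, 67903224845537117019,
  71741685610997313558, 75793101612177583716, 80069068815916136193, 84581802954613853041,
  89344172071194632587, 94369730681588542427, 99672755755398910279, 105268284484498172541,
  111172154055226837556, 117401043396402560062, 123972517135036533402]

set_option maxRecDepth 100000 in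
theorem check_run : isOne (run 499 2 A) = true := by decide +kernel

set_option maxRecDepth 100000 in
theorem check_lc : lc (A.drop 71) = true := by decide +kernel

set_option maxRecDepth 100000 in
theorem length_A : A.length = 501 := by decide +kernel

set_option maxRecDepth 100000 in
theorem check_71 : A.getD 71 0 ^ 2 < A.getD 70 0 * A.getD 72 0 := by decide +kernel

theorem m_eq (n : ℕ) (hn : 501 ≤ n) (k : ℕ) (hk : k ≤ 500) : m n k = A.getD k 0 := by
  obtain ⟨n, rfl⟩ : ∃ n', n = n' + 1 := ⟨n - 1, by omega⟩
  rw [m, if_pos (Int.natCast_nonneg k), Int.toNat_natCast]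
  exact coeff_qCat_eq length_A check_run n (by omega) k (by omega)

theorem m_symm (n : ℕ) (k k' : ℤ) (hk : 0 ≤ k) (hk' : 0 ≤ k') (h : k + k' = (n : ℤ) * (n - 1)) :
    m n k = m n k' := by
  obtain ⟨a, rfl⟩ := Int.eq_ofNat_of_zero_le hk
  obtain ⟨b, rfl⟩ := Int.eq_ofNat_of_zero_le hk'
  have h1 : a + b = n * (n - 1) := by
    cases n with
    | zero =>
      simp only [Nat.cast_zero, zero_mul] at h
      simp only [zero_mul]
      exact_mod_cast h
    | succ n =>
      have : (a : ℤ) + b = ((n + 1 : ℕ) : ℤ) * n := by
        rw [h]; push_cast; ring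
      have e : n + 1 - 1 = n := rfl
      rw [e]
      exact_mod_cast this
  simp only [m, Int.natCast_nonneg, if_true, Int.toNat_natCast]
  have h2 := coeff_qCat_symm n b (by omega)
  rw [← h1, Nat.add_sub_cancel] at h2
  exact h2

theorem lc_low (n : ℕ) (hn : 501 ≤ n) (k : ℤ) (h1 : 72 ≤ k) (h2 : k ≤ 499) :
    m n (k - 1) * m n (k + 1) ≤ m n k ^ 2 := by
  obtain ⟨j, rfl⟩ : ∃ j : ℕ, k = ((j + 72 : ℕ) : ℤ) := ⟨(k - 72).toNat, by omega⟩
  have e1 : ((j + 72 : ℕ) : ℤ) - 1 = ((j + 71 : ℕ) : ℤ) := by push_cast; ring
  have e2 : ((j + 72 : ℕ) : ℤ) + 1 = ((j + 73 : ℕ) : ℤ) := by push_cast; ring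
  have hj : j ≤ 427 := by push_cast at h2; omega
  rw [e1, e2, m_eq n hn _ (by omega), m_eq n hn _ (by omega), m_eq n hn _ (by omega)]
  have h3 := lc_spec _ check_lc j (by rw [List.length_drop, length_A]; omega)
  simp only [List.getD_eq_getElem?_getD, List.getElem?_drop] at h3 ⊢
  rw [show 71 + j = j + 71 by ring, show 71 + (j + 2) = j + 73 by ring,
    show 71 + (j + 1) = j + 72 by ring] at h3
  exact h3

theorem good_ge (t : ℤ) (h : Good t) : 71 ≤ t := by
  by_contra ht
  push Not at ht
  obtain ⟨N, hN⟩ := h
  have h1 : 501 ≤ max N 501 := le_max_right _ _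
  have h2 := hN (max N 501) (le_max_left _ _) 71 (by omega) (by
    have h3 : (501 : ℤ) ≤ ((max N 501 : ℕ) : ℤ) := by exact_mod_cast h1
    by_cases h0 : -1000 ≤ t
    · nlinarith
    · nlinarith)
  have e1 : (71 : ℤ) - 1 = ((70 : ℕ) : ℤ) := by norm_num
  have e2 : (71 : ℤ) + 1 = ((72 : ℕ) : ℤ) := by norm_num
  have e3 : (71 : ℤ) = ((71 : ℕ) : ℤ) := by norm_num
  rw [e1, e2, e3, m_eq _ h1 _ (by omega), m_eq _ h1 _ (by omega), m_eq _ h1 _ (by omega)] at h2
  exact absurd check_71 (not_lt.2 h2)

theorem good_down (t : ℤ) (ht : t ≤ 499) (h : Good t) : Good 71 := by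
  obtain ⟨N, hN⟩ := h
  refine ⟨max N 501, fun n hn k hk1 hk2 => ?_⟩
  have hn1 : N ≤ n := le_trans (le_max_left _ _) hn
  have hn2 : 501 ≤ n := le_trans (le_max_right _ _) hn
  by_cases c1 : k ≤ 499
  · exact lc_low n hn2 k (by omega) c1
  by_cases c2 : (n : ℤ) * (n - 1) - 499 ≤ k
  · have h1 := lc_low n hn2 ((n : ℤ) * (n - 1) - k) (by omega) (by omega)
    rw [m_symm n (k - 1) ((n : ℤ) * (n - 1) - k + 1) (by omega) (by omega) (by ring),
      m_symm n (k + 1) ((n : ℤ) * (n - 1) - k - 1) (by omega) (by omega) (by ring),
      m_symm n k ((n : ℤ) * (n - 1) - k) (by omega) (by omega) (by ring), mul_comm]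
    exact h1
  · exact hN n hn1 k (by omega) (by omega)

/-- **The least `t` is not `75`.** The `q`-Catalan number `qCat n` is the exact quotient
`[2n]! / ([n+1] [n]! [n]!)`, it has degree `n (n - 1)`. If the sequences
`m_n(t), ..., m_n(n(n-1)-t)` are log-concave for all large `n`, then `t ≥ 71`; if this holds for
some `t ≤ 499` then it holds for `t = 71`; hence `75` is not the least such `t`. -/
theorem result :
    (∀ n, qint (n + 1) * (qfact n * qfact n) * qCat n = qfact (2 * n) ∧
      (qCat n).natDegree = n * (n - 1)) ∧
    (∀ t : ℤ, Good t → 71 ≤ t) ∧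
    (∀ t : ℤ, 71 ≤ t → t ≤ 499 → (Good t ↔ Good 71)) ∧
    ¬ IsLeast {t : ℤ | Good t} 75 := by
  refine ⟨fun n => ⟨qCat_mul n, natDegree_qCat n⟩, good_ge, fun t h1 h2 => ⟨good_down t h2, ?_⟩, ?_⟩
  · rintro ⟨N, hN⟩
    exact ⟨N, fun n hn k hk1 hk2 => hN n hn k (by omega) (by omega)⟩
  · rintro ⟨h1, h2⟩
    have h3 : (75 : ℤ) ≤ 71 := h2 (good_down 75 (by norm_num) h1)
    norm_num at h3

end Pool.Agent.Results.MP_532027_co.LeastTNot75
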